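import Pool.Agent.H850.TR.Main

/-!
# MP_690138_an: operators without exceptional irreducible summands lie in triangular algebras

Let `A` be a bounded operator on a separable complex Hilbert space.  Call `A` *exceptional* if
`h(A) - h(A)*` is compact for some non-constant polynomial `h`, but `h(A)` is not self-adjoint for any
non-constant polynomial `h`.

(1) Every `A` which is not exceptional belongs to a triangular subalgebra of `B(H)` in the sense of
Kadison and Singer.

(2) Every `A` without minimal reducing subspaces (without irreducible direct summands) belongs to
a triangular algebra.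

(3) If the restriction of `A` to every minimal reducing subspace is not exceptional or belongs to a
triangular algebra, then `A` belongs to a triangular algebra.  So the question of Kadison and Singer is
reduced to exceptional irreducible operators.

Proof.  If `h(A) - h(A)*` is non-compact for all non-constant `h`, then `A` is in a triangular algebra by
the theorem of the starting library (`Pool.Agent.H905R2.Tri7`, handed in as
`MP_690138_an.EssentialCase`).  New here: let `N = h(A)` be self-adjoint.  The abelian von Neumann
algebra `{N}''` commutes with `A`, and its character space `X` is extremally disconnected; by Gleason's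
theorem `X` is projective, so the roots of `h(z) = N(x)` can be chosen as continuous functions on `X`.
They give `R_i` in `{N}''` with `∏ (A - R_i) = 0`.  The kernels of the partial products are a chain of
invariant subspaces of `A` with diagonal blocks in `{N}''`; a masa containing `{N}''` and the projections
onto these kernels is the diagonal of a triangular algebra containing `A`.  This proves (1).  If
`h(A) - h(A)*` is compact and non-zero, then a reducing subspace generated by a part of minimal dimension
of one of its eigenspaces is a minimal reducing subspace; so operators without minimal reducing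
subspaces are not exceptional, which gives (2).  (3) follows by splitting off a maximal orthogonal family
of minimal reducing subspaces.

Several parts were formalised by other seats of the team: helpers 29, 127, 398, 622, 658, 831, 835, 907.
-/

set_option autoImplicit false

open Polynomial

namespace Pool.Agent.Results.MP_690138_an.NoExceptionalSummand

variable {H : Type*} [NormedAddCommGroup H] [InnerProductSpace ℂ H] [CompleteSpace H]

/-- `A` belongs to a subalgebra of `B(H)` which is triangular in the sense of Kadison and Singer: its
diagonal is equal to its own commutant, that is, a maximal abelian self-adjoint algebra. -/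
def InTriangularAlgebra (A : H →L[ℂ] H) : Prop :=
  ∃ 𝒯 : Subalgebra ℂ (H →L[ℂ] H), A ∈ 𝒯 ∧
    {x : H →L[ℂ] H | x ∈ 𝒯 ∧ star x ∈ 𝒯} =
      Set.centralizer {x : H →L[ℂ] H | x ∈ 𝒯 ∧ star x ∈ 𝒯}

/-- `h(A) - h(A)*` is compact for some non-constant polynomial `h`, but `h(A)` is not self-adjoint for
any non-constant polynomial `h`. -/
def Exceptional (A : H →L[ℂ] H) : Prop :=
  (∃ h : ℂ[X], 0 < h.natDegree ∧ IsCompactOperator (aeval A h - star (aeval A h))) ∧
    ∀ h : ℂ[X], 0 < h.natDegree → aeval A h ≠ star (aeval A h)

/-- `V` is a closed subspace invariant under `A` and its adjoint. -/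
def IsReducing (A : H →L[ℂ] H) (V : Submodule ℂ H) : Prop :=
  IsClosed (V : Set H) ∧ (∀ v ∈ V, A v ∈ V) ∧ ∀ v ∈ V, star A v ∈ V

/-- `V` is a minimal non-zero reducing subspace of `A`. -/
def IsMinimalReducing (A : H →L[ℂ] H) (V : Submodule ℂ H) : Prop :=
  IsReducing A V ∧ V ≠ ⊥ ∧ ∀ W, IsReducing A W → W ≤ V → W = ⊥ ∨ W = V

/-- The operator on the closed subspace `V` which maps `v` to the orthogonal projection of `A v`; if `V`
is invariant under `A`, this is the restriction of `A` to `V`. -/
noncomputable def restrictTo (V : Submodule ℂ H) [CompleteSpace V] (A : H →L[ℂ] H) : V →L[ℂ] V :=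
  V.orthogonalProjection ∘L A ∘L V.subtypeL

/-- **Operators without exceptional irreducible summands lie in triangular algebras.** -/
theorem result (H : Type*) [NormedAddCommGroup H] [InnerProductSpace ℂ H] [CompleteSpace H]
    [TopologicalSpace.SeparableSpace H] (A : H →L[ℂ] H) :
    (¬ Exceptional A → InTriangularAlgebra A) ∧
    ((∀ V, ¬ IsMinimalReducing A V) → InTriangularAlgebra A) ∧
    ((∀ (V : Submodule ℂ H) (_ : CompleteSpace V), IsMinimalReducing A V →
      ¬ Exceptional (restrictTo V A) ∨ InTriangularAlgebra (restrictTo V A)) →
        InTriangularAlgebra A) := by
  have hne : ∀ (K : Type _) [NormedAddCommGroup K] [InnerProductSpace ℂ K] [CompleteSpace K]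
      (B : K →L[ℂ] K), ¬ Exceptional B → H850.TR.Good B := by
    intro K _ _ _ B hB
    by_contra hn
    apply hB
    unfold H850.TR.Good at hn
    push Not at hn
    exact hn
  refine ⟨fun hA => H850.TR.tri_of_good (hne H A hA), fun hA =>
    H850.TR.tri_of_good (H850.TR.good_of_nonExc (H850.TR.nonExc_of_no_minRed hA)), fun hA => ?_⟩
  apply H850.TR.tri_of_minRed A
  intro V hV hm
  rcases hA V hV hm with h | h
  · exact Or.inl (hne V _ h)
  · exact Or.inr h

end Pool.Agent.Results.MP_690138_an.NoExceptionalSummand
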